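import Pool.Agent.Lib.MP_ff43e2_co.GroFinal

set_option autoImplicit false
open Pool.Agent.Lib.MP_ff43e2_co

namespace Pool.Agent.Results.MP_ff43e2_co.GrowingLower

/-- The asymptotic rescaled Turan density exceeds de Caen's bound `1/r` by an unbounded factor. -/
theorem result : Filter.Tendsto (fun r : ℕ => (r : ℝ) * tInf r) Filter.atTop Filter.atTop :=
  Gro.tInf_grow

end Pool.Agent.Results.MP_ff43e2_co.GrowingLower
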