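import Pool.Agent.Lib.MP_ff43e2_co.Upper

set_option autoImplicit false
open Pool.Agent.Lib.MP_ff43e2_co

namespace Pool.Agent.Results.MP_ff43e2_co.LogUpper

/-- The asymptotic rescaled Turan density grows at most logarithmically in the uniformity. -/
theorem result : ∀ r : ℕ, 3 ≤ r → tInf r ≤ Real.log r + Real.log (Real.log r) + 30 :=
  fun _ hr => upper hr

end Pool.Agent.Results.MP_ff43e2_co.LogUpper
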