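import Pool.Agent.Lib.MP_ff43e2_co.Lower

set_option autoImplicit false
open Pool.Agent.Lib.MP_ff43e2_co

namespace Pool.Agent.Results.MP_ff43e2_co.LowerThree

/-- A lower bound for Turan densities of complete 3-graphs above de Caen's `1/3`. -/
theorem result : (∀ a : ℕ, 3 ≤ a → (36 / 25) ^ 2 / (a : ℝ) ^ 2 ≤ t (a + 1) 3) ∧
    216 / 625 ≤ tInf 3 :=
  ⟨fun _ ha => Low.t_lower (by omega), Low.tInf_lower⟩

end Pool.Agent.Results.MP_ff43e2_co.LowerThree
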