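import Pool.Agent.Lib.MP_ff43e2_co.Six

set_option autoImplicit false
open Pool.Agent.Lib.MP_ff43e2_co

namespace Pool.Agent.Results.MP_ff43e2_co.UpperFour

/-- The asymptotic rescaled Turan density of complete 4-graphs is below `0.5786`, hence below
the conjectured value `2/3` for 3-graphs. -/
theorem result : tInf 4 < 2893 / 5000 := Six.main

end Pool.Agent.Results.MP_ff43e2_co.UpperFour
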